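import Mathlib
import Pool.Agent.helper67.RG.Spec

namespace Pool.Agent.RG.EMB

open Matrix Pool.Agent.GO Pool.Agent.AR Pool.Agent.RG Kronecker

/-- the embedding of the first copy -/
def EMB_e {F : Type*} [Field F] {b : ℕ} (k0 : Fin b) : (Fin 2 → F) →ₗ[F] (Fin 2 × Fin b → F) where
  toFun x := fun ik => if ik.2 = k0 then x ik.1 else 0
  map_add' x y := by
    ext ik
    by_cases h : ik.2 = k0 <;> simp [h]
  map_smul' c x := by
    ext ik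
    by_cases h : ik.2 = k0 <;> simp [h]

/-- the projection to the first copy -/
def EMB_r {F : Type*} [Field F] {b : ℕ} (k0 : Fin b) : (Fin 2 × Fin b → F) →ₗ[F] (Fin 2 → F) where
  toFun y := fun i => y (i, k0)
  map_add' x y := by
    ext i
    simp
  map_smul' c x := by
    ext i
    simp

theorem EMB_re {F : Type*} [Field F] {b : ℕ} (k0 : Fin b) (x : Fin 2 → F) :
    EMB_r k0 (EMB_e k0 x) = x := by
  ext i
  simp [EMB_r, EMB_e]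

theorem EMB_kron {F : Type*} [Field F] {b : ℕ} (k0 : Fin b) (A : Matrix (Fin 2) (Fin 2) F)
    (x : Fin 2 → F) :
    (A ⊗ₖ (1 : Matrix (Fin b) (Fin b) F)) *ᵥ (EMB_e k0 x) = EMB_e k0 (A *ᵥ x) := by
  ext ik
  obtain ⟨i, k⟩ := ik
  simp only [Matrix.mulVec, dotProduct, EMB_e, LinearMap.coe_mk, AddHom.coe_mk,
    Fintype.sum_prod_type, Matrix.kroneckerMap_apply]
  by_cases h : k = k0
  · subst h
    rw [if_pos rfl]
    refine Finset.sum_congr rfl fun j _ => ?_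
    rw [Finset.sum_eq_single k]
    · simp
    · intro l _ hl
      simp [hl]
    · intro hk
      exact absurd (Finset.mem_univ _) hk
  · rw [if_neg h]
    refine Finset.sum_eq_zero fun j _ => Finset.sum_eq_zero fun l _ => ?_
    by_cases hl : l = k0
    · subst hl
      rw [Matrix.one_apply_ne h]
      simp
    · simp [hl]

theorem EMB : EMB_stmt := by
  intro F Γ _ _ d b W ρ T T' hb hT'T hW
  have key : ∀ g (x : Fin 2 → F), W g *ᵥ (T *ᵥ (EMB_e ⟨0, hb⟩ x)) =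
      T *ᵥ (EMB_e ⟨0, hb⟩ (ρ g *ᵥ x)) := by
    intro g x
    rw [Matrix.mulVec_mulVec, hW g, ← Matrix.mulVec_mulVec, EMB_kron]
  have key2 : ∀ x : Fin 2 → F, EMB_r ⟨0, hb⟩ (T' *ᵥ (T *ᵥ (EMB_e ⟨0, hb⟩ x))) = x := by
    intro x
    rw [Matrix.mulVec_mulVec, hT'T, Matrix.one_mulVec, EMB_re]
  let Q : Submodule F (Fin d → F) := LinearMap.range (T.mulVecLin ∘ₗ EMB_e ⟨0, hb⟩)
  have hmem : ∀ y : Fin d → F, y ∈ Q ↔ ∃ x : Fin 2 → F, T *ᵥ (EMB_e ⟨0, hb⟩ x) = y := by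
    intro y
    exact Iff.rfl
  have hQ : ∀ g, ∀ y ∈ Q, W g *ᵥ y ∈ Q := by
    intro g y hy
    obtain ⟨x, rfl⟩ := (hmem y).1 hy
    exact (hmem _).2 ⟨ρ g *ᵥ x, (key g x).symm⟩
  refine ⟨Q, hQ, (EMB_r ⟨0, hb⟩ ∘ₗ T'.mulVecLin) ∘ₗ Q.subtype, ?_, ?_⟩
  · intro x
    exact ⟨⟨T *ᵥ (EMB_e ⟨0, hb⟩ x), (hmem _).2 ⟨x, rfl⟩⟩, key2 x⟩
  · intro g y
    obtain ⟨x, hx⟩ := (hmem y.1).1 y.2
    show EMB_r ⟨0, hb⟩ (T' *ᵥ (W g *ᵥ y.1)) = ρ g *ᵥ (EMB_r ⟨0, hb⟩ (T' *ᵥ y.1))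
    rw [← hx, key g x, key2, key2]

end Pool.Agent.RG.EMB
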